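import Pool.Agent.Work.MP_666b5d_gt.Main

/-!
# Evenness of Real bordism for quasi-abelian augmented compact groups

For every quasi-abelian augmented compact group `η : G → {1, -1}` and every integer `k`, the group
`π ^ G _ (k ρ - 1) (MR_η)` vanishes.
-/

namespace Pool.Agent.Results.MP_666b5d_gt.Evenness

universe u

theorem result {G : Type u} [Group G] [TopologicalSpace G] [IsTopologicalGroup G] [CompactSpace G]
    (η : G →* ℤˣ) (hη : Continuous η) (hq : RB.IsQuasiAbelian η) (k : ℤ) : RB.PiVanishes η k :=
  RB.main η hη hq k

end Pool.Agent.Results.MP_666b5d_gt.Evenness
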